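import Pool.Agent.Helper98.TW.Basic

/-!
Small facts on complex conditional expectations for the sheet TW (MP_7a8f48_an).
-/

set_option linter.unusedSectionVars false

open MeasureTheory Filter Topology Finset
open scoped ComplexConjugate

namespace Pool.Agent.Helper29.TWR

open Pool.Agent.Helper98.TW

section ce

variable {Ω : Type} [m0 : MeasurableSpace Ω] {μ : Measure Ω} [IsProbabilityMeasure μ]
  {𝒜 C : SA Ω} {X Y f g c : Ω → ℂ}

/-- essentially bounded functions -/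
def EB (μ : Measure Ω) (c : Ω → ℂ) : Prop := ∃ B : ℝ, ∀ᵐ x ∂μ, ‖c x‖ ≤ B

theorem EB.congr (h : EB μ f) (hfg : f =ᵐ[μ] g) : EB μ g := by
  obtain ⟨B, hB⟩ := h
  refine ⟨B, ?_⟩
  filter_upwards [hB, hfg] with x h1 h2
  rw [← h2]
  exact h1

theorem EB.mul (hf : EB μ f) (hg : EB μ g) : EB μ (fun x => f x * g x) := by
  obtain ⟨B, hB⟩ := hf
  obtain ⟨B', hB'⟩ := hg
  refine ⟨|B| * |B'|, ?_⟩
  filter_upwards [hB, hB'] with x h1 h2
  rw [norm_mul]
  exact mul_le_mul (h1.trans (le_abs_self B)) (h2.trans (le_abs_self B')) (norm_nonneg _)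
    (abs_nonneg _)

theorem EB.add (hf : EB μ f) (hg : EB μ g) : EB μ (fun x => f x + g x) := by
  obtain ⟨B, hB⟩ := hf
  obtain ⟨B', hB'⟩ := hg
  refine ⟨B + B', ?_⟩
  filter_upwards [hB, hB'] with x h1 h2
  exact (norm_add_le _ _).trans (add_le_add h1 h2)

theorem EB.sub (hf : EB μ f) (hg : EB μ g) : EB μ (fun x => f x - g x) := by
  obtain ⟨B, hB⟩ := hf
  obtain ⟨B', hB'⟩ := hg
  refine ⟨B + B', ?_⟩
  filter_upwards [hB, hB'] with x h1 h2
  exact (norm_sub_le _ _).trans (add_le_add h1 h2)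

theorem EB.conj (hf : EB μ f) : EB μ (fun x => conj (f x)) := by
  obtain ⟨B, hB⟩ := hf
  refine ⟨B, ?_⟩
  filter_upwards [hB] with x h1
  rw [RCLike.norm_conj]
  exact h1

theorem eb_uf (hf : UF μ f) : EB μ f := ⟨1, by filter_upwards [hf.2] with x h1; exact h1.le⟩

theorem eb_bf (hf : BF f) : EB μ f := by
  obtain ⟨_, B, hB⟩ := hf
  exact ⟨B, Eventually.of_forall hB⟩

theorem EB.comp {Ω' : Type} [MeasurableSpace Ω'] {ν : Measure Ω'} {S : Ω' → Ω} (hf : EB μ f)
    (hS : MeasurePreserving S ν μ) : EB ν (fun x => f (S x)) := by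
  obtain ⟨B, hB⟩ := hf
  exact ⟨B, hS.quasiMeasurePreserving.ae hB⟩

theorem EB.integrable (hf : EB μ f) (hm : AEStronglyMeasurable f μ) : Integrable f μ := by
  obtain ⟨B, hB⟩ := hf
  exact Integrable.mono' (integrable_const B) hm hB

theorem EB.integrable_mul (hf : EB μ f) (hm : AEStronglyMeasurable f μ) (hg : Integrable g μ) :
    Integrable (fun x => f x * g x) μ := by
  obtain ⟨B, hB⟩ := hf
  exact hg.bdd_mul (c := B) hm hB

/-- the everywhere bounded version -/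
theorem exists_bf (hm : AEStronglyMeasurable f μ) (hf : EB μ f) : ∃ g, BF g ∧ f =ᵐ[μ] g := by
  classical
  obtain ⟨B, hB⟩ := hf
  obtain ⟨g, hg, hfg⟩ := hm
  have hgm : Measurable g := hg.measurable
  refine ⟨fun x => if ‖g x‖ ≤ B then g x else 0, ⟨?_, |B|, ?_⟩, ?_⟩
  · exact Measurable.ite (measurableSet_le hgm.norm measurable_const) hgm measurable_const
  · intro x
    dsimp only
    split_ifs with h
    · exact h.trans (le_abs_self B)
    · simp
  · filter_upwards [hB, hfg] with x h1 h2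
    rw [h2] at h1
    rw [h2, if_pos h1]

theorem aesm (hA : Lm 𝒜) (hf : AM μ 𝒜 f) : AEStronglyMeasurable f μ :=
  AEStronglyMeasurable.mono hA hf

theorem am_ce : AM μ 𝒜 (μ[X|𝒜]) := stronglyMeasurable_condExp.aestronglyMeasurable

/-- pull-out -/
theorem ce_pull (hf : AM μ 𝒜 f) (hfg : Integrable (fun x => f x * g x) μ) (hg : Integrable g μ) :
    μ[fun x => f x * g x|𝒜] =ᵐ[μ] fun x => f x * (μ[g|𝒜]) x := by
  have h := condExp_bilin_of_aestronglyMeasurable_left (μ := μ) (m := 𝒜)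
    (ContinuousLinearMap.mul ℝ ℂ) (f := f) (g := g) hf (by simpa using hfg) hg
  simpa using h

/-- integrals against measurable functions -/
theorem int_ce (hA : Lm 𝒜) (hf : AM μ 𝒜 f) (hfg : Integrable (fun x => f x * g x) μ)
    (hg : Integrable g μ) : ∫ x, f x * (μ[g|𝒜]) x ∂μ = ∫ x, f x * g x ∂μ := by
  have hA' : @LE.le (MeasurableSpace Ω) _ 𝒜 m0 := hA
  have : IsFiniteMeasure (μ.trim hA') := isFiniteMeasure_trim hA'
  have : SigmaFinite (μ.trim hA') := IsFiniteMeasure.toSigmaFinite _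
  calc ∫ x, f x * (μ[g|𝒜]) x ∂μ = ∫ x, (μ[fun x => f x * g x|𝒜]) x ∂μ :=
        integral_congr_ae (ce_pull hf hfg hg).symm
    _ = ∫ x, f x * g x ∂μ := integral_condExp hA'

theorem int_ce_eb (hA : Lm 𝒜) (hf : AM μ 𝒜 f) (hb : EB μ f)
    (hg : Integrable g μ) : ∫ x, f x * (μ[g|𝒜]) x ∂μ = ∫ x, f x * g x ∂μ :=
  int_ce hA hf (hb.integrable_mul (aesm hA hf) hg) hg

/-- the complex indicator of a set -/
noncomputable def ind (s : Set Ω) (x : Ω) : ℂ := s.indicator (fun _ => 1) x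

theorem ind_mul (s : Set Ω) (g : Ω → ℂ) (x : Ω) : ind s x * g x = s.indicator g x := by
  by_cases h : x ∈ s <;> simp [ind, h]

theorem am_ind {s : Set Ω} (hs : MeasurableSet[𝒜] s) : AM μ 𝒜 (ind s) := by
  have : StronglyMeasurable[𝒜] (ind s) := by
    have := (@stronglyMeasurable_const Ω ℂ 𝒜 _ 1).indicator hs
    exact this
  exact this.aestronglyMeasurable

theorem eb_ind (s : Set Ω) : EB μ (ind s) := by
  refine ⟨1, Eventually.of_forall fun x => ?_⟩
  by_cases h : x ∈ s <;> simp [ind, h]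

/-- characterization of the conditional expectation -/
theorem ce_unique (hA : Lm 𝒜) (hX : Integrable X μ) (hY : Integrable Y μ) (hYA : AM μ 𝒜 Y)
    (h : ∀ c : Ω → ℂ, AM μ 𝒜 c → EB μ c → ∫ x, c x * Y x ∂μ = ∫ x, c x * X x ∂μ) :
    μ[X|𝒜] =ᵐ[μ] Y := by
  have hle : @LE.le (MeasurableSpace Ω) _ 𝒜 m0 := hA
  have : IsFiniteMeasure (μ.trim hle) := isFiniteMeasure_trim hle
  have : SigmaFinite (μ.trim hle) := IsFiniteMeasure.toSigmaFinite _
  refine (ae_eq_condExp_of_forall_setIntegral_eq hle hX (fun s _ _ => hY.integrableOn) ?_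
    hYA).symm
  intro s hs _
  have hsm : MeasurableSet s := hle s hs
  have := h (ind s) (am_ind hs) (eb_ind s)
  simp only [ind_mul] at this
  rwa [integral_indicator hsm, integral_indicator hsm] at this

theorem ce_zero_iff (hA : Lm 𝒜) (hX : Integrable X μ) :
    μ[X|𝒜] =ᵐ[μ] 0 ↔ ∀ c : Ω → ℂ, AM μ 𝒜 c → EB μ c → ∫ x, c x * X x ∂μ = 0 := by
  constructor
  · intro h c hc hb
    rw [← int_ce_eb hA hc hb hX]
    have : ∀ᵐ x ∂μ, c x * (μ[X|𝒜]) x = 0 := by
      filter_upwards [h] with x hx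
      rw [hx]
      simp
    rw [integral_congr_ae this]
    simp
  · intro h
    refine ce_unique hA hX (integrable_zero _ _ _) (am_const (μ := μ) (𝒜 := 𝒜) 0) ?_
    intro c hc hb
    rw [h c hc hb]
    simp

/-- tower property up to null sets -/
theorem ce_tower (hA : Lm 𝒜) (hC : Lm C) (h : LQ μ C 𝒜) (hX : Integrable X μ) :
    μ[μ[X|𝒜]|C] =ᵐ[μ] μ[X|C] := by
  refine ce_unique hC integrable_condExp integrable_condExp am_ce ?_
  intro c hc hb
  rw [int_ce_eb hC hc hb hX, int_ce_eb hA (h c hc) hb hX]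

theorem ce_zero_lq (hA : Lm 𝒜) (hC : Lm C) (h : LQ μ C 𝒜) (hX : Integrable X μ)
    (h0 : μ[X|𝒜] =ᵐ[μ] 0) : μ[X|C] =ᵐ[μ] 0 := by
  rw [ce_zero_iff hC hX]
  intro c hc hb
  exact (ce_zero_iff hA hX).1 h0 c (h c hc) hb

theorem ce_of_am (hA : Lm 𝒜) (hX : Integrable X μ) (h : AM μ 𝒜 X) : μ[X|𝒜] =ᵐ[μ] X :=
  ce_unique hA hX hX h fun _ _ _ => rfl

theorem ce_sub (hX : Integrable X μ) (hY : Integrable Y μ) :
    μ[fun x => X x - Y x|𝒜] =ᵐ[μ] fun x => (μ[X|𝒜]) x - (μ[Y|𝒜]) x :=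
  condExp_sub hX hY 𝒜

theorem ce_add (hX : Integrable X μ) (hY : Integrable Y μ) :
    μ[fun x => X x + Y x|𝒜] =ᵐ[μ] fun x => (μ[X|𝒜]) x + (μ[Y|𝒜]) x :=
  condExp_add hX hY 𝒜

/-- the conditional expectation of an essentially bounded function -/
theorem eb_ce (h : EB μ X) : EB μ (μ[X|𝒜]) := by
  obtain ⟨B, hB⟩ := h
  by_cases hX : Integrable X μ
  swap
  · have h0 : μ[X|𝒜] = 0 := condExp_of_not_integrable hX
    refine ⟨0, Eventually.of_forall fun x => ?_⟩
    simp [h0]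
  by_cases hA : @LE.le (MeasurableSpace Ω) _ 𝒜 m0
  swap
  · have h0 : μ[X|𝒜] = 0 := condExp_of_not_le hA
    refine ⟨0, Eventually.of_forall fun x => ?_⟩
    simp [h0]
  refine ⟨B, ?_⟩
  have h1 := norm_condExp_le (m := 𝒜) (μ := μ) X
  have h2 : μ[(‖X ·‖) | 𝒜] ≤ᵐ[μ] μ[fun _ => B|𝒜] :=
    condExp_mono hX.norm (integrable_const B) hB
  have h3 : μ[fun _ : Ω => B|𝒜] = fun _ => B := condExp_const hA B
  filter_upwards [h1, h2] with x hx1 hx2
  rw [h3] at hx2
  exact hx1.trans hx2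

theorem memLp_ce (h : MemLp X 2 μ) : MemLp (μ[X|𝒜]) 2 μ := by
  refine ⟨integrable_condExp.1, ?_⟩
  exact (eLpNorm_condExp_le_eLpNorm X one_le_two).trans_lt h.2

theorem int2 (h : MemLp X 2 μ) : Integrable X μ := h.integrable one_le_two

theorem int_mul2 (hX : MemLp X 2 μ) (hY : MemLp Y 2 μ) : Integrable (fun x => X x * Y x) μ :=
  MemLp.integrable_mul hX hY

theorem EB.memLp (hf : EB μ f) (hm : AEStronglyMeasurable f μ) : MemLp f 2 μ := by
  obtain ⟨B, hB⟩ := hf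
  exact MemLp.of_bound hm B hB

theorem int_sq (h : MemLp X 2 μ) : Integrable (fun x => ‖X x‖ ^ 2) μ := by
  have := h.norm.integrable_sq
  simpa using this

/-- orthogonality over a join with a group of unimodular functions -/
theorem ce_jo_zero (hDNS : ST_DNS) (hC : Lm C) {Φ : Set (Ω → ℂ)} (hΦ : Grp μ Φ)
    (hX : Integrable X μ) (h : ∀ φ ∈ Φ, μ[fun x => X x * conj (φ x)|C] =ᵐ[μ] 0) :
    μ[X|jo C (sg Φ)] =ᵐ[μ] 0 := by
  have hJ : Lm (jo C (sg Φ)) := lm_jo hC (lm_sg fun φ hφ => (hΦ.uf φ hφ).1)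
  refine hDNS Ω μ C Φ _ hC hΦ integrable_condExp am_ce ?_
  intro φ hφ
  have hu := hΦ.uf φ hφ
  have hA : AM μ (jo C (sg Φ)) (fun x => conj (φ x)) := am_conj (am_jo_right (am_sg hφ))
  have hcb : EB μ (fun x => conj (φ x)) := (eb_uf hu).conj
  have hi : Integrable (fun x => (μ[X|jo C (sg Φ)]) x * conj (φ x)) μ := by
    have := hcb.integrable_mul (aesm hJ hA) (integrable_condExp (μ := μ) (m := jo C (sg Φ))
      (f := X))
    refine this.congr (Eventually.of_forall fun x => ?_)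
    exact mul_comm _ _
  have hi' : Integrable (fun x => X x * conj (φ x)) μ := by
    have := hcb.integrable_mul (aesm hJ hA) hX
    refine this.congr (Eventually.of_forall fun x => ?_)
    exact mul_comm _ _
  rw [ce_zero_iff hC hi]
  intro c hc hb
  have h1 : ∫ x, c x * ((μ[X|jo C (sg Φ)]) x * conj (φ x)) ∂μ =
      ∫ x, (c x * conj (φ x)) * (μ[X|jo C (sg Φ)]) x ∂μ :=
    integral_congr_ae (Eventually.of_forall fun x => by ring)
  have h2 : ∫ x, (c x * conj (φ x)) * X x ∂μ = ∫ x, c x * (X x * conj (φ x)) ∂μ :=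
    integral_congr_ae (Eventually.of_forall fun x => by ring)
  rw [h1, int_ce_eb hJ (am_mul (am_jo_left hc) hA) (hb.mul hcb) hX, h2]
  exact (ce_zero_iff hC hi').1 (h φ hφ) c hc hb

/-- the variance inequality -/
theorem ce_var (hA : Lm 𝒜) (hX : MemLp X 2 μ) :
    ∫ x, ‖X x - (μ[X|𝒜]) x‖ ^ 2 ∂μ ≤ ∫ x, ‖X x‖ ^ 2 ∂μ := by
  set d : Ω → ℂ := μ[X|𝒜] with hd
  have hd2 : MemLp d 2 μ := memLp_ce hX
  have hsub : MemLp (fun x => X x - d x) 2 μ := hX.sub hd2
  have hdA : AM μ 𝒜 d := am_ce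
  have hdc : MemLp (fun x => conj (d x)) 2 μ := hd2.star
  have hi1 : Integrable (fun x => conj (d x) * X x) μ := int_mul2 hdc hX
  have hi2 : Integrable (fun x => conj (d x) * d x) μ := int_mul2 hdc hd2
  have horth : ∫ x, conj (d x) * (X x - d x) ∂μ = 0 := by
    have h1 : ∫ x, conj (d x) * (X x - d x) ∂μ =
        ∫ x, conj (d x) * X x ∂μ - ∫ x, conj (d x) * d x ∂μ := by
      rw [← integral_sub hi1 hi2]
      exact integral_congr_ae (Eventually.of_forall fun x => by simp only; ring)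
    rw [h1, sub_eq_zero]
    exact (int_ce hA (am_conj hdA) hi1 (int2 hX)).symm
  have hre : ∫ x, (conj (d x) * (X x - d x)).re ∂μ = 0 := by
    have h0 : Integrable (fun x => conj (d x) * (X x - d x)) μ := int_mul2 hdc hsub
    have := integral_re (𝕜 := ℂ) h0
    simp only [RCLike.re_eq_complex_re] at this
    rw [this, horth]
    simp
  have hexp : ∀ x, ‖X x‖ ^ 2 = ‖X x - d x‖ ^ 2 + ‖d x‖ ^ 2 +
      2 * (conj (d x) * (X x - d x)).re := by
    intro x
    have e : ∀ z : ℂ, ‖z‖ ^ 2 = z.re * z.re + z.im * z.im := by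
      intro z
      rw [← Complex.normSq_eq_norm_sq, Complex.normSq_apply]
    rw [e, e, e]
    simp only [Complex.sub_re, Complex.sub_im, Complex.mul_re, Complex.conj_re, Complex.conj_im]
    ring
  have hint : ∫ x, ‖X x‖ ^ 2 ∂μ = ∫ x, ‖X x - d x‖ ^ 2 ∂μ + ∫ x, ‖d x‖ ^ 2 ∂μ := by
    have i1 := int_sq hsub
    have i2 := int_sq hd2
    have i3 : Integrable (fun x => (conj (d x) * (X x - d x)).re) μ :=
      (int_mul2 hdc hsub).re
    calc ∫ x, ‖X x‖ ^ 2 ∂μ = ∫ x, (‖X x - d x‖ ^ 2 + ‖d x‖ ^ 2 +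
          2 * (conj (d x) * (X x - d x)).re) ∂μ :=
          integral_congr_ae (Eventually.of_forall hexp)
      _ = _ := by
          have e1 := integral_add (μ := μ) (f := fun x => ‖X x - d x‖ ^ 2 + ‖d x‖ ^ 2)
            (g := fun x => 2 * (conj (d x) * (X x - d x)).re) (i1.add i2) (i3.const_mul 2)
          rw [e1, integral_add i1 i2, integral_const_mul, hre]
          simp
  rw [hint]
  have : 0 ≤ ∫ x, ‖d x‖ ^ 2 ∂μ := integral_nonneg fun x => by positivity
  linarith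

end ce

section sys

variable {Ω Ω' : Type} [m0 : MeasurableSpace Ω] [m0' : MeasurableSpace Ω'] {μ : Measure Ω}
  {μ' : Measure Ω'} [IsProbabilityMeasure μ] [IsProbabilityMeasure μ'] {π : Ω → Ω'}

/-- invariance of inverse images -/
theorem ia_cm (hPFC : ST_PFC) (hπ : MeasurePreserving π μ μ') {𝒜 : SA Ω'} {R R' : Ω → Ω}
    {S S' : Ω' → Ω'} (hR : Sys μ R R') (hA : IA μ' 𝒜 S S') (h : ∀ z, π (R z) = S (π z))
    (h' : ∀ z, π (R' z) = S' (π z)) : IA μ (cm π 𝒜) R R' := by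
  obtain ⟨-, h2, h3⟩ := hPFC Ω Ω' μ μ' π 𝒜 hπ hA.1
  refine ⟨lm_cm hπ.measurable hA.1, ?_⟩
  intro f hf
  obtain ⟨F, hFm, hF, hfF⟩ := h3 f hf
  constructor
  · have h1 : AM μ (cm π 𝒜) (fun x => F (S (π x))) := by
      have := (hA.2 F hF).1
      exact (h2 (fun y => F (S y)) (aesm hA.1 this)).2 this
    refine am_congr h1 ?_
    filter_upwards [hR.mp.quasiMeasurePreserving.ae hfF] with x hx
    rw [hx, h]
  · have h1 : AM μ (cm π 𝒜) (fun x => F (S' (π x))) := by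
      have := (hA.2 F hF).2
      exact (h2 (fun y => F (S' y)) (aesm hA.1 this)).2 this
    refine am_congr h1 ?_
    filter_upwards [hR.mp'.quasiMeasurePreserving.ae hfF] with x hx
    rw [hx, h']

/-- the full sigma algebra is invariant -/
theorem ia_full {S S' : Ω → Ω} (hS : Sys μ S S') : IA μ (m0 : SA Ω) S S' := by
  refine ⟨le_refl (α := MeasurableSpace Ω) m0, fun f hf => ⟨?_, ?_⟩⟩
  · exact AEStronglyMeasurable.comp_measurePreserving (g := f) hf hS.mp
  · exact AEStronglyMeasurable.comp_measurePreserving (g := f) hf hS.mp'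

end sys

end Pool.Agent.Helper29.TWR
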