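import Pool.Agent.Helper29.TWR.VSL

/-!
Hilbert space lemmas for the row VST of the sheet TW (MP_7a8f48_an).
-/

set_option linter.unusedSectionVars false

open MeasureTheory Filter Topology Finset
open scoped ComplexConjugate

namespace Pool.Agent.Helper29.TWR

open Pool.Agent.Helper98.TW
open Pool.Agent.Helper16.AZ (T mm)

/-! ### orthogonal sequences -/

section hil

variable {ι H K : Type} [NormedAddCommGroup H] [InnerProductSpace ℂ H]
  [NormedAddCommGroup K] [InnerProductSpace ℂ K]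

theorem norm_sq_sum (v : ι → H) (h : ∀ a b, a ≠ b → (inner ℂ (v a) (v b) : ℂ) = 0)
    (S : Finset ι) : ‖∑ a ∈ S, v a‖ ^ 2 = ∑ a ∈ S, ‖v a‖ ^ 2 := by
  classical
  induction S using Finset.induction_on with
  | empty => simp
  | insert a S ha ih =>
    rw [Finset.sum_insert ha, Finset.sum_insert ha, ← ih]
    have h0 : (inner ℂ (v a) (∑ b ∈ S, v b) : ℂ) = 0 := by
      rw [inner_sum]
      exact Finset.sum_eq_zero fun b hb => h a b fun hab => ha (hab ▸ hb)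
    have := norm_add_sq (𝕜 := ℂ) (v a) (∑ b ∈ S, v b)
    rw [h0] at this
    simpa using this

/-- Bessel -/
theorem bessel (v : ι → H) (G : H) (h : ∀ a b, a ≠ b → (inner ℂ (v a) (v b) : ℂ) = 0)
    (hG : ∀ a, (inner ℂ (v a) G : ℂ) = inner ℂ (v a) (v a)) (S : Finset ι) :
    ∑ a ∈ S, ‖v a‖ ^ 2 ≤ ‖G‖ ^ 2 := by
  have h1 : (inner ℂ (∑ a ∈ S, v a) (G - ∑ a ∈ S, v a) : ℂ) = 0 := by
    rw [sum_inner]
    refine Finset.sum_eq_zero fun a ha => ?_
    rw [inner_sub_right, hG, inner_sum, Finset.sum_eq_single a, sub_self]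
    · intro b _ hb
      exact h a b hb.symm
    · intro ha'
      exact (ha' ha).elim
  have h2 := norm_add_sq (𝕜 := ℂ) (∑ a ∈ S, v a) (G - ∑ a ∈ S, v a)
  rw [h1] at h2
  simp only [add_sub_cancel, map_zero, mul_zero, add_zero] at h2
  rw [h2, ← norm_sq_sum v h S]
  nlinarith [sq_nonneg ‖G - ∑ a ∈ S, v a‖]

theorem summable_orth [CompleteSpace H] (v : ι → H)
    (h : ∀ a b, a ≠ b → (inner ℂ (v a) (v b) : ℂ) = 0) (B : ℝ)
    (hB : ∀ S : Finset ι, ∑ a ∈ S, ‖v a‖ ^ 2 ≤ B) : Summable v := by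
  have hs : Summable fun a => ‖v a‖ ^ 2 :=
    summable_of_sum_le (fun a => by positivity) hB
  let V : ι → Submodule ℂ H := fun a => Submodule.span ℂ {v a}
  have hV : OrthogonalFamily ℂ (fun a => V a) (fun a => (V a).subtypeₗᵢ) := by
    refine OrthogonalFamily.of_pairwise ?_
    intro a b hab
    show V a ⟂ V b
    rw [Submodule.isOrtho_span]
    intro x hx y hy
    rw [Set.mem_singleton_iff.1 hx, Set.mem_singleton_iff.1 hy]
    exact h a b hab
  have h1 := (hV.summable_iff_norm_sq_summable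
    (fun a => (⟨v a, Submodule.mem_span_singleton_self (v a)⟩ : V a))).2 (by simpa using hs)
  simpa using h1

/-- the estimate for the sum from the estimates for the components -/
theorem est_sum [CompleteSpace H] (v : ι → H) (G : H)
    (h : ∀ a b, a ≠ b → (inner ℂ (v a) (v b) : ℂ) = 0)
    (hG : ∀ a, (inner ℂ (v a) G : ℂ) = inner ℂ (v a) (v a)) (J : H →L[ℂ] K)
    (hJ : ∀ a b, a ≠ b → (inner ℂ (J (v a)) (J (v b)) : ℂ) = 0) (δ : ℝ) (hδ : 0 ≤ δ)
    (hest : ∀ a, ‖J (v a)‖ ^ 2 ≤ δ * ‖v a‖ ^ 2) (hsum : HasSum v G) :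
    ‖J G‖ ^ 2 ≤ δ * ‖G‖ ^ 2 := by
  have h1 : Tendsto (fun S : Finset ι => ‖J (∑ a ∈ S, v a)‖ ^ 2) atTop (𝓝 (‖J G‖ ^ 2)) := by
    have : Tendsto (fun S : Finset ι => ∑ a ∈ S, v a) atTop (𝓝 G) := hsum
    exact (((J.continuous.tendsto G).comp this).norm).pow 2
  refine le_of_tendsto' h1 fun S => ?_
  rw [map_sum, norm_sq_sum (fun a => J (v a)) hJ S]
  calc ∑ a ∈ S, ‖J (v a)‖ ^ 2 ≤ ∑ a ∈ S, δ * ‖v a‖ ^ 2 := Finset.sum_le_sum fun a _ => hest a
    _ = δ * ∑ a ∈ S, ‖v a‖ ^ 2 := by rw [Finset.mul_sum]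
    _ ≤ δ * ‖G‖ ^ 2 := mul_le_mul_of_nonneg_left (bessel v G h hG S) hδ

theorem inner_hasSum (v : ι → H) (u W : H) (hs : HasSum v u) (i : ι)
    (h : ∀ a, a ≠ i → (inner ℂ W (v a) : ℂ) = 0) : (inner ℂ W u : ℂ) = inner ℂ W (v i) := by
  have h1 : HasSum (fun a => (inner ℂ W (v a) : ℂ)) (inner ℂ W u) := hs.mapL (innerSL ℂ W)
  exact h1.unique (hasSum_single i h)

end hil

/-! ### square integrable functions -/

section l2

variable {Ω : Type} [m0 : MeasurableSpace Ω] {μ : Measure Ω} [IsProbabilityMeasure μ]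
  {𝒜 : SA Ω}

theorem inner_eq (f g : Lp ℂ 2 μ) : (inner ℂ f g : ℂ) = ∫ x, conj (f x) * g x ∂μ := by
  rw [L2.inner_def]
  refine integral_congr_ae (Eventually.of_forall fun x => ?_)
  simp only [RCLike.inner_apply]
  exact mul_comm _ _

theorem nsq (g : Lp ℂ 2 μ) : ‖g‖ ^ 2 = ∫ x, ‖g x‖ ^ 2 ∂μ := by
  have h1 := inner_eq g g
  rw [inner_self_eq_norm_sq_to_K] at h1
  have h2 : ∫ x, conj (g x) * g x ∂μ = ((∫ x, ‖g x‖ ^ 2 ∂μ : ℝ) : ℂ) := by
    rw [← integral_complex_ofReal]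
    refine integral_congr_ae (Eventually.of_forall fun x => ?_)
    show conj (g x) * g x = ((‖g x‖ ^ 2 : ℝ) : ℂ)
    rw [mul_comm, Complex.mul_conj, Complex.normSq_eq_norm_sq]
  rw [h2] at h1
  have h3 : (((‖g‖ ^ 2 : ℝ)) : ℂ) = ((∫ x, ‖g x‖ ^ 2 ∂μ : ℝ) : ℂ) := by
    rw [← h1]
    simp
  exact Complex.ofReal_injective h3

theorem nsq' {g : Ω → ℂ} (hg : MemLp g 2 μ) : ‖hg.toLp g‖ ^ 2 = ∫ x, ‖g x‖ ^ 2 ∂μ := by
  rw [nsq]
  refine integral_congr_ae ?_
  filter_upwards [hg.coeFn_toLp] with x hx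
  rw [hx]

/-- truncation -/
noncomputable def trn (k : ℕ) (g : Ω → ℂ) (x : Ω) : ℂ := by
  classical exact if ‖g x‖ ≤ k then g x else 0

theorem bf_trn (k : ℕ) {g : Ω → ℂ} (hg : Measurable g) : BF (trn k g) := by
  classical
  refine ⟨?_, k, fun x => ?_⟩
  · exact Measurable.ite (measurableSet_le hg.norm measurable_const) hg measurable_const
  · unfold trn
    split_ifs with h
    · exact h
    · simp

theorem norm_trn_le (k : ℕ) (g : Ω → ℂ) (x : Ω) : ‖trn k g x‖ ≤ ‖g x‖ := by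
  unfold trn
  split_ifs with h
  · exact le_rfl
  · simp

theorem memLp_bf {g : Ω → ℂ} (hg : BF g) : MemLp g 2 μ :=
  EB.memLp (eb_bf hg) hg.1.aestronglyMeasurable

theorem trn_tendsto {g : Ω → ℂ} (hm : Measurable g) (hg : MemLp g 2 μ) :
    Tendsto (fun k => (memLp_bf (μ := μ) (bf_trn k hm)).toLp) atTop (𝓝 (hg.toLp g)) := by
  rw [tendsto_iff_norm_sub_tendsto_zero]
  have h1 : Tendsto (fun k => ‖(memLp_bf (μ := μ) (bf_trn k hm)).toLp - hg.toLp g‖ ^ 2) atTop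
      (𝓝 0) := by
    have e1 : ∀ k, ‖(memLp_bf (μ := μ) (bf_trn k hm)).toLp - hg.toLp g‖ ^ 2 =
        ∫ x, ‖trn k g x - g x‖ ^ 2 ∂μ := by
      intro k
      rw [← MemLp.toLp_sub, nsq']
      rfl
    simp only [e1]
    have h0 : Tendsto (fun k => ∫ x, ‖trn k g x - g x‖ ^ 2 ∂μ) atTop (𝓝 (∫ x, (0 : ℝ) ∂μ)) := by
      refine tendsto_integral_of_dominated_convergence (fun x => ‖g x‖ ^ 2) ?_ (int_sq hg) ?_ ?_
      · intro k
        exact (((bf_trn k hm).1.sub hm).norm.pow_const 2).aestronglyMeasurable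
      · intro k
        refine Eventually.of_forall fun x => ?_
        rw [Real.norm_of_nonneg (by positivity)]
        unfold trn
        split_ifs with h
        · simp
        · simp
      · refine Eventually.of_forall fun x => ?_
        obtain ⟨k₀, hk₀⟩ := exists_nat_ge ‖g x‖
        refine tendsto_const_nhds.congr' ?_
        filter_upwards [eventually_ge_atTop k₀] with k hk
        have : ‖g x‖ ≤ k := hk₀.trans (by exact_mod_cast hk)
        unfold trn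
        rw [if_pos this]
        simp
    simpa using h0
  have h2 := h1.sqrt
  simp only [Real.sqrt_zero] at h2
  refine h2.congr fun k => ?_
  exact Real.sqrt_sq (norm_nonneg _)

/-- the conditional expectation as an operator -/
noncomputable def CE (μ : Measure Ω) [IsProbabilityMeasure μ] (𝒜 : SA Ω)
    (hA : @LE.le (MeasurableSpace Ω) _ 𝒜 m0) : Lp ℂ 2 μ →L[ℂ] Lp ℂ 2 μ :=
  (lpMeas ℂ ℂ 𝒜 2 μ).subtypeL.comp (condExpL2 ℂ ℂ hA)

theorem CE_ae (hA : @LE.le (MeasurableSpace Ω) _ 𝒜 m0) {g : Ω → ℂ} (hg : MemLp g 2 μ) :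
    CE μ 𝒜 hA (hg.toLp g) =ᵐ[μ] μ[g|𝒜] :=
  hg.condExpL2_ae_eq_condExp hA

theorem CE_ae' (hA : @LE.le (MeasurableSpace Ω) _ 𝒜 m0) (g : Lp ℂ 2 μ) :
    CE μ 𝒜 hA g =ᵐ[μ] μ[g|𝒜] := by
  have h := CE_ae hA (Lp.memLp g)
  rwa [Lp.toLp_coeFn] at h

end l2

/-! ### the operator of a joining -/

section join

variable {N : ℕ} {lev : Fin N → ℕ} {f f' : Fin N → T N → U} {p q : ℕ}
  {κ : Measure (T N × T N)} {C : SA (T N)} {l : ℕ} {a b : Fin N → ℤ}

theorem bb_le : @LE.le (MeasurableSpace (T N × T N)) _ (BB N) inferInstance :=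
  lm_cm measurable_snd (le_refl (α := MeasurableSpace (T N)) _)

/-- the operator -/
noncomputable def JO [IsProbabilityMeasure κ] (hfst : MeasurePreserving Prod.fst κ (mm N)) :
    Lp ℂ 2 (mm N) →L[ℂ] Lp ℂ 2 κ :=
  (CE κ (BB N) bb_le).comp
    (Lp.compMeasurePreservingₗᵢ ℂ (Prod.fst : T N × T N → T N) hfst).toContinuousLinearMap

theorem JO_ae [IsProbabilityMeasure κ] (hfst : MeasurePreserving Prod.fst κ (mm N))
    {g : T N → ℂ} (hg : MemLp g 2 (mm N)) :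
    JO hfst (hg.toLp g) =ᵐ[κ] κ[fun z => g z.1|BB N] := by
  have h1 : MemLp (fun z : T N × T N => g z.1) 2 κ := hg.comp_measurePreserving hfst
  exact CE_ae (μ := κ) (𝒜 := BB N) bb_le h1

theorem JO_nsq [IsProbabilityMeasure κ] (hfst : MeasurePreserving Prod.fst κ (mm N))
    {g : T N → ℂ} (hg : MemLp g 2 (mm N)) : ‖JO hfst (hg.toLp g)‖ ^ 2 = JJ κ g := by
  rw [nsq]
  unfold JJ
  refine integral_congr_ae ?_
  filter_upwards [JO_ae hfst hg] with z hz
  rw [hz]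

end join

end Pool.Agent.Helper29.TWR
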