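import Pool.Agent.Helper29.TWR.VSL

/-!
Row VF1 of the sheet TW (MP_7a8f48_an): the splitting of homogeneous functions.
-/

set_option linter.unusedSectionVars false

open MeasureTheory Filter Topology Finset
open scoped ComplexConjugate

namespace Pool.Agent.Helper29.TWR

open Pool.Agent.Helper98.TW
open Pool.Agent.Helper16.AZ (T mm)

variable {N : ℕ} {lev : Fin N → ℕ} {f f' : Fin N → T N → U} {p q : ℕ}
  {κ : Measure (T N × T N)} {C : SA (T N)} {l : ℕ} {a b : Fin N → ℤ}

/-- the transfer of a function to the first coordinate -/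
theorem transfer (hPFC : ST_PFC) (hJN : JN f p q κ) {h : T N × T N → ℂ}
    (hm : AEStronglyMeasurable h κ) (hb : EB κ h) :
    ∃ K : T N → ℂ, Integrable K (mm N) ∧ ∀ u : T N → ℂ, AEStronglyMeasurable u (mm N) →
      EB (mm N) u → ∫ z, h z * u z.1 ∂κ = ∫ x, K x * u x ∂(mm N) := by
  have hκ : IsProbabilityMeasure κ := hJN.prob
  have hfst := mp_fst hJN
  have hfull : Lm ((inferInstance : MeasurableSpace (T N)) : SA (T N)) :=
    le_refl (α := MeasurableSpace (T N)) _
  obtain ⟨-, h2, h3⟩ := hPFC _ _ κ (mm N) Prod.fst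
    ((inferInstance : MeasurableSpace (T N)) : SA (T N)) hfst hfull
  have hh : Integrable h κ := hb.integrable hm
  have hLm : Lm (cm (Prod.fst : T N × T N → T N)
    ((inferInstance : MeasurableSpace (T N)) : SA (T N))) := lm_cm measurable_fst hfull
  obtain ⟨K, hKm, -, hK⟩ := h3 _ (am_ce (μ := κ) (X := h))
  have hKi : Integrable K (mm N) := by
    have h1 : Integrable (fun z => K z.1) κ :=
      (integrable_condExp (μ := κ) (f := h)).congr hK
    exact (hfst.integrable_comp hKm.aestronglyMeasurable).1 h1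
  refine ⟨K, hKi, ?_⟩
  intro u hu hub
  have hu1 : AM κ (cm (Prod.fst : T N × T N → T N)
    ((inferInstance : MeasurableSpace (T N)) : SA (T N))) (fun z => u z.1) := (h2 u hu).2 hu
  have e1 : ∫ z, h z * u z.1 ∂κ = ∫ z, u z.1 * h z ∂κ :=
    integral_congr_ae (Eventually.of_forall fun z => mul_comm _ _)
  have e2 := int_ce_eb hLm hu1 (hub.comp hfst) hh
  have e3 : ∫ z, u z.1 * (κ[h|cm (Prod.fst : T N × T N → T N)
      ((inferInstance : MeasurableSpace (T N)) : SA (T N))]) z ∂κ = ∫ z, K z.1 * u z.1 ∂κ := by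
    refine integral_congr_ae ?_
    filter_upwards [hK] with z hz
    rw [hz, mul_comm]
  have e4 : ∫ z, K z.1 * u z.1 ∂κ = ∫ x, K x * u x ∂(mm N) := by
    have hm1 : AEStronglyMeasurable (fun x => K x * u x) (κ.map Prod.fst) := by
      rw [hJN.fst]
      exact hKm.aestronglyMeasurable.mul hu
    have := integral_map (μ := κ) (φ := Prod.fst) measurable_fst.aemeasurable hm1
    rw [hJN.fst] at this
    exact this.symm
  rw [e1, ← e2, e3, e4]

theorem st_VF1 (hLZ : ST_LZ) (hDNS : ST_DNS) (hLT : ST_LT) (hHAA : ST_HAA) (hHIA : ST_HIA)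
    (hCHZ : ST_CHZ) (hIAJ : ST_IAJ) (hPFC : ST_PFC) (hTRM : ST_TRM) (hALS : ST_ALS)
    (hMPS : ST_MPS) (_hIAL : ST_IAL) : ST_VF1 := by
  intro N lev f f' p q κ C l a F hTI hEG hp hq hpq hJN hHP ha hBF hF
  have hκ : IsProbabilityMeasure κ := hJN.prob
  have hfst := mp_fst hJN
  have hsnd := mp_snd hJN
  have hALm : Lm (AL lev l) := (hALS N lev).2.2.1 l
  have hCm : Lm C := hHP.ia.1
  obtain ⟨hIA', -, -⟩ := hHIA N lev f f' p q κ C l hTI hp hq hpq hHP
  have hE : Ergodic (SS f)^[p] (mm N) := (hEG p hp.one_le).1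
  have hG := (hHAA N lev f f' p q κ C l hTI hHP).1
  have hC'm : Lm (jo C (sg (VS lev f p q κ C l))) := hIA'.1
  have hFi : Integrable F (mm N) := (eb_bf hBF).integrable hBF.1.aestronglyMeasurable
  by_cases hne : ∃ ψ₁, ψ₁ ∈ PA lev f p C l a
  swap
  · refine ⟨fun _ => 0, F, ⟨measurable_const, 0, by simp⟩, hBF, ?_, hF, ?_, le_rfl, ?_⟩
    · exact Eventually.of_forall fun x => by simp
    · intro ψ hψ
      exact (hne ⟨ψ, hψ⟩).elim
    · intro G hG hGe
      have h0 := vs_zero hDNS hCHZ hALS hHAA hTI hHP ha hFi hF fun ψ hψ hψa =>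
        (hne ⟨ψ, hψ.1.1, hψa, hψ.1.2.2⟩).elim
      have hG0 : G =ᵐ[mm N] 0 := hGe.trans h0
      have h1 : (fun z : T N × T N => G z.1) =ᵐ[κ] fun _ => 0 :=
        hfst.quasiMeasurePreserving.ae hG0
      exact (condExp_congr_ae h1).symm
  obtain ⟨ψ₁, hψ₁⟩ := hne
  -- the sigma algebra D
  set Φ : Set (T N → ℂ) := {u | UF (mm N) u ∧ AM (mm N) (AL lev l) u ∧
    Inc (mm N) C (SS f)^[p] u} with hΦ
  have hΦG : Grp (mm N) Φ := by
    refine ⟨fun u hu => hu.1, ⟨uf_one, am_const 1, inc_one⟩, ?_, ?_⟩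
    · intro u hu v hv
      exact ⟨hu.1.mul hv.1, am_mul hu.2.1 hv.2.1, hu.2.2.mul hv.2.2⟩
    · intro u hu
      exact ⟨hu.1.conj, am_conj hu.2.1, hu.2.2.conj⟩
  set D : SA (T N) := jo C (sg Φ) with hD
  have hDm : Lm D := lm_jo hCm (lm_sg fun φ hφ => hφ.1.1)
  have hDA : LQ (mm N) D (AL lev l) := lq_jo hHP.le (lq_sg fun φ hφ => hφ.2.1)
  have hψm : AEStronglyMeasurable ψ₁ (mm N) := hψ₁.1.1.aestronglyMeasurable
  -- the function X
  set X : T N → ℂ := fun x => conj (ψ₁ x) * F x with hXdef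
  have hXm : AEStronglyMeasurable X (mm N) :=
    hψ₁.1.conj.1.aestronglyMeasurable.mul hBF.1.aestronglyMeasurable
  have hXb : EB (mm N) X := (eb_uf hψ₁.1).conj.mul (eb_bf hBF)
  have hXi : Integrable X (mm N) := hXb.integrable hXm
  set d : T N → ℂ := (mm N)[X|D] with hd
  have hdA : AM (mm N) D d := am_ce
  have hdb : EB (mm N) d := eb_ce hXb
  have hdm : AEStronglyMeasurable d (mm N) := aesm hDm hdA
  obtain ⟨F₁, hF₁B, hF₁⟩ := exists_bf (hψm.mul hdm) ((eb_uf hψ₁.1).mul hdb)
  replace hF₁ : (fun x => ψ₁ x * d x) =ᵐ[mm N] F₁ := hF₁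
  have hF₁i : Integrable F₁ (mm N) := (eb_bf hF₁B).integrable hF₁B.1.aestronglyMeasurable
  have hF₂B : BF (fun x => F x - F₁ x) := by
    obtain ⟨h1, B, hB⟩ := hBF
    obtain ⟨h2, B', hB'⟩ := hF₁B
    exact ⟨h1.sub h2, B + B', fun x => (norm_sub_le _ _).trans (add_le_add (hB x) (hB' x))⟩
  have hF₂i : Integrable (fun x => F x - F₁ x) (mm N) := hFi.sub hF₁i
  have hF₂e : (fun x => F x - F₁ x) =ᵐ[mm N] fun x => ψ₁ x * (X x - d x) := by
    filter_upwards [hF₁, hψ₁.1.mul_conj] with x h1 h2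
    rw [← h1]
    simp only [hXdef]
    rw [mul_sub, ← mul_assoc, h2, one_mul]
  have hF₂A : AM (mm N) (AL lev l) (fun x => conj (ex a x) * (F x - F₁ x)) := by
    have h1 : AM (mm N) (AL lev l) (fun x => (conj (ex a x) * ψ₁ x) * d x) :=
      am_mul hψ₁.2.1 (hDA d hdA)
    refine am_congr (am_sub hF h1) ?_
    filter_upwards [hF₁] with x hx
    rw [← hx]
    ring
  have hprod : ∀ ψ ∈ PA lev f p C l a, (fun x => conj (ψ x) * ψ₁ x) ∈ Φ := by
    intro ψ hψ
    refine ⟨hψ.1.conj.mul hψ₁.1, ?_, hψ.2.2.conj.mul hψ₁.2.2⟩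
    refine am_congr (am_mul (am_conj hψ.2.1) hψ₁.2.1) (Eventually.of_forall fun x => ?_)
    show conj (conj (ex a x) * ψ x) * (conj (ex a x) * ψ₁ x) = conj (ψ x) * ψ₁ x
    have := conj_mul_ex a x
    calc conj (conj (ex a x) * ψ x) * (conj (ex a x) * ψ₁ x)
        = (conj (ex a x) * ex a x) * (conj (ψ x) * ψ₁ x) := by
          simp only [map_mul, Complex.conj_conj]
          ring
      _ = _ := by rw [this, one_mul]
  have hF₂0 : ∀ ψ ∈ PA lev f p C l a,
      (mm N)[fun x => conj (ψ x) * (F x - F₁ x)|C] =ᵐ[mm N] 0 := by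
    intro ψ hψ
    have hφ := hprod ψ hψ
    have hφD : AM (mm N) D (fun x => conj (ψ x) * ψ₁ x) := am_jo_right (am_sg hφ)
    have hi : Integrable (fun x => conj (ψ x) * (F x - F₁ x)) (mm N) :=
      (eb_uf hψ.1).conj.integrable_mul hψ.1.conj.1.aestronglyMeasurable hF₂i
    rw [ce_zero_iff hCm hi]
    intro c hc hcb
    have hcD : AM (mm N) D (fun x => c x * (conj (ψ x) * ψ₁ x)) := am_mul (am_jo_left hc) hφD
    have hcDb : EB (mm N) (fun x => c x * (conj (ψ x) * ψ₁ x)) := hcb.mul (eb_uf hφ.1)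
    have h1 := int_ce_eb hDm hcD hcDb hXi
    have h2 : ∫ x, c x * (conj (ψ x) * (F x - F₁ x)) ∂(mm N) =
        ∫ x, ((c x * (conj (ψ x) * ψ₁ x)) * X x - (c x * (conj (ψ x) * ψ₁ x)) * d x)
          ∂(mm N) := by
      refine integral_congr_ae ?_
      filter_upwards [hF₂e] with x hx
      rw [hx]
      ring
    have hdi : Integrable d (mm N) := integrable_condExp
    rw [h2, integral_sub (hcDb.integrable_mul (aesm hDm hcD) hXi)
      (hcDb.integrable_mul (aesm hDm hcD) hdi), ← h1, sub_self]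
  refine ⟨F₁, fun x => F x - F₁ x, hF₁B, hF₂B, Eventually.of_forall fun x => by simp, hF₂A,
    hF₂0, ?_, ?_⟩
  · -- the norm
    have h1 : ∫ x, ‖F x - F₁ x‖ ^ 2 ∂(mm N) = ∫ x, ‖X x - d x‖ ^ 2 ∂(mm N) := by
      refine integral_congr_ae ?_
      filter_upwards [hF₂e, hψ₁.1.2] with x hx h2
      show ‖F x - F₁ x‖ ^ 2 = ‖X x - d x‖ ^ 2
      have hx' : F x - F₁ x = ψ₁ x * (X x - d x) := hx
      rw [hx', norm_mul, h2, one_mul]
    have h2 : ∫ x, ‖X x‖ ^ 2 ∂(mm N) = ∫ x, ‖F x‖ ^ 2 ∂(mm N) := by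
      refine integral_congr_ae ?_
      filter_upwards [hψ₁.1.2] with x h2
      simp only [hXdef]
      rw [norm_mul, RCLike.norm_conj, h2, one_mul]
    rw [h1, ← h2]
    exact ce_var hDm (hXb.memLp hXm)
  · -- the projections
    intro G hGB hGe
    have hGi : Integrable G (mm N) := (eb_bf hGB).integrable hGB.1.aestronglyMeasurable
    have h20 := vs_zero hDNS hCHZ hALS hHAA hTI hHP ha hF₂i hF₂A fun ψ hψ hψa =>
      hF₂0 ψ ⟨hψ.1.1, hψa, hψ.1.2.2⟩
    set C' : SA (T N) := jo C (sg (VS lev f p q κ C l)) with hC'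
    have hG1 : (mm N)[F₁|C'] =ᵐ[mm N] G := by
      have h3 := ce_sub (𝒜 := C') hFi hF₁i
      filter_upwards [h3, h20, hGe] with x h3 h4 h5
      rw [h4] at h3
      rw [h5]
      have : (0 : ℂ) = ((mm N)[F|C']) x - ((mm N)[F₁|C']) x := h3
      exact (sub_eq_zero.1 this.symm).symm
    have hGA : AM (mm N) C' G := am_congr am_ce hGe.symm
    -- duality
    have hBBm : Lm (BB N) := lm_cm measurable_snd
      (le_refl (α := MeasurableSpace (T N)) _)
    have hF₁κ : Integrable (fun z : T N × T N => F₁ z.1) κ :=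
      hfst.integrable_comp_of_integrable hF₁i
    have hGκ : Integrable (fun z : T N × T N => G z.1) κ :=
      hfst.integrable_comp_of_integrable hGi
    refine ce_unique hBBm hF₁κ integrable_condExp am_ce ?_
    intro h hh hhb
    rw [int_ce_eb hBBm hh hhb hGκ]
    obtain ⟨K, hKi, hK⟩ := transfer hPFC hJN (aesm hBBm hh) hhb
    rw [hK F₁ hF₁B.1.aestronglyMeasurable (eb_bf hF₁B),
      hK G hGB.1.aestronglyMeasurable (eb_bf hGB)]
    -- the function K' = K - E(K|C')
    set KC : T N → ℂ := (mm N)[K|C'] with hKC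
    have hKCi : Integrable KC (mm N) := integrable_condExp
    have hKCA : AM (mm N) C' KC := am_ce
    have hK'i : Integrable (fun x => K x - KC x) (mm N) := hKi.sub hKCi
    have hK'0 : (mm N)[fun x => K x - KC x|C'] =ᵐ[mm N] 0 := by
      have h3 := ce_sub (𝒜 := C') hKi hKCi
      filter_upwards [h3, ce_of_am hC'm hKCi hKCA] with x h3 h4
      rw [h3, h4]
      simp [hKC]
    have hmulc : ∀ {u g : T N → ℂ}, UF (mm N) u → Integrable g (mm N) →
        Integrable (fun x => u x * g x) (mm N) := fun hu hg =>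
      (eb_uf hu).integrable_mul hu.1.aestronglyMeasurable hg
    have claim1 : ∀ ψ ∈ PA lev f p C l a,
        (mm N)[fun x => ψ x * (K x - KC x)|C] =ᵐ[mm N] 0 := by
      intro ψ hψ
      rw [ce_zero_iff hCm (hmulc hψ.1 hK'i)]
      intro c hc hcb
      by_cases hv : ψ ∈ VS lev f p q κ C l
      · have h3 := (ce_zero_iff hC'm hK'i).1 hK'0 (fun x => c x * ψ x)
          (am_mul (am_jo_left hc) (am_jo_right (am_sg hv))) (hcb.mul (eb_uf hψ.1))
        rw [← h3]
        exact integral_congr_ae (Eventually.of_forall fun x => by simp only; ring)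
      · have hcm : AEStronglyMeasurable c (mm N) := aesm hCm hc
        have hcψm : AEStronglyMeasurable (fun x => c x * ψ x) (mm N) :=
          hcm.mul hψ.1.1.aestronglyMeasurable
        have hcψb : EB (mm N) (fun x => c x * ψ x) := hcb.mul (eb_uf hψ.1)
        -- the part with K
        have p1 : ∫ x, K x * (c x * ψ x) ∂(mm N) = 0 := by
          rw [← hK _ hcψm hcψb]
          have h3 := inv_zero hLZ hIAJ hPFC hTRM hMPS hTI hJN hHP ha hψ hv
          have hκc : AM κ (cm Prod.fst C) (fun z : T N × T N => c z.1) :=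
            ((hPFC _ _ κ (mm N) Prod.fst C hfst hCm).2.1 _ hcm).2 hc
          have hJm : Lm (jo (BB N) (cm (Prod.fst : T N × T N → T N) C)) :=
            lm_jo hBBm (lm_cm measurable_fst hCm)
          have hψκ : Integrable (fun z : T N × T N => ψ z.1) κ :=
            (eb_uf (hψ.1.comp hfst)).integrable (hψ.1.comp hfst).1.aestronglyMeasurable
          have h4 := (ce_zero_iff hJm hψκ).1 h3 (fun z => h z * c z.1)
            (am_mul (am_jo_left hh) (am_jo_right hκc)) (hhb.mul (hcb.comp hfst))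
          rw [← h4]
          exact integral_congr_ae (Eventually.of_forall fun x => by simp only; ring)
        -- the part with KC
        have p2 : ∫ x, (KC x * c x) * ψ x ∂(mm N) = 0 := by
          have h3 := inv_zero' hLZ hLT hHAA hPFC hMPS hTI hE hJN hHP hIA' ha hψ hv
          have hi1 : Integrable (fun x => KC x * c x) (mm N) := by
            have := hcb.integrable_mul hcm hKCi
            exact this.congr (Eventually.of_forall fun x => mul_comm _ _)
          have hi2 : Integrable (fun x => (KC x * c x) * ψ x) (mm N) := by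
            have := hmulc hψ.1 hi1
            exact this.congr (Eventually.of_forall fun x => mul_comm _ _)
          have hψi : Integrable ψ (mm N) :=
            (eb_uf hψ.1).integrable hψ.1.1.aestronglyMeasurable
          rw [← int_ce hC'm (am_mul hKCA (am_jo_left hc)) hi2 hψi]
          have : ∀ᵐ x ∂(mm N), (KC x * c x) * ((mm N)[ψ|C']) x = 0 := by
            filter_upwards [h3] with x hx
            rw [hx]
            simp
          rw [integral_congr_ae this]
          simp
        have e1 : Integrable (fun x => K x * (c x * ψ x)) (mm N) := by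
          have := hcψb.integrable_mul hcψm hKi
          exact this.congr (Eventually.of_forall fun x => mul_comm _ _)
        have e2 : Integrable (fun x => (KC x * c x) * ψ x) (mm N) := by
          have := hcψb.integrable_mul hcψm hKCi
          exact this.congr (Eventually.of_forall fun x => by simp only; ring)
        have e3 : ∫ x, c x * (ψ x * (K x - KC x)) ∂(mm N) =
            ∫ x, (K x * (c x * ψ x) - (KC x * c x) * ψ x) ∂(mm N) :=
          integral_congr_ae (Eventually.of_forall fun x => by simp only; ring)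
        rw [e3, integral_sub e1 e2, p1, p2, sub_zero]
    have claim2 : (mm N)[fun x => ψ₁ x * (K x - KC x)|D] =ᵐ[mm N] 0 := by
      refine ce_jo_zero hDNS hCm hΦG (hmulc hψ₁.1 hK'i) ?_
      intro φ hφ
      have hmem : (fun x => ψ₁ x * conj (φ x)) ∈ PA lev f p C l a := by
        refine ⟨hψ₁.1.mul hφ.1.conj, ?_, hψ₁.2.2.mul hφ.2.2.conj⟩
        refine am_congr (am_mul hψ₁.2.1 (am_conj hφ.2.1)) (Eventually.of_forall fun x => ?_)
        show conj (ex a x) * ψ₁ x * conj (φ x) = conj (ex a x) * (ψ₁ x * conj (φ x))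
        ring
      refine (condExp_congr_ae (Eventually.of_forall fun x => ?_)).trans (claim1 _ hmem)
      show ψ₁ x * (K x - KC x) * conj (φ x) = ψ₁ x * conj (φ x) * (K x - KC x)
      ring
    have claim3 : ∫ x, (K x - KC x) * F₁ x ∂(mm N) = 0 := by
      have h3 := (ce_zero_iff hDm (hmulc hψ₁.1 hK'i)).1 claim2 d hdA hdb
      rw [← h3]
      refine integral_congr_ae ?_
      filter_upwards [hF₁] with x hx
      rw [← hx]
      ring
    have hF₁m : AEStronglyMeasurable F₁ (mm N) := hF₁B.1.aestronglyMeasurable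
    have i1 : Integrable (fun x => K x * F₁ x) (mm N) := by
      have := (eb_bf hF₁B).integrable_mul hF₁m hKi
      exact this.congr (Eventually.of_forall fun x => mul_comm _ _)
    have i2 : Integrable (fun x => KC x * F₁ x) (mm N) := by
      have := (eb_bf hF₁B).integrable_mul hF₁m hKCi
      exact this.congr (Eventually.of_forall fun x => mul_comm _ _)
    have s1 : ∫ x, K x * F₁ x ∂(mm N) = ∫ x, KC x * F₁ x ∂(mm N) := by
      have : ∫ x, (K x - KC x) * F₁ x ∂(mm N) =
          ∫ x, K x * F₁ x ∂(mm N) - ∫ x, KC x * F₁ x ∂(mm N) := by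
        rw [← integral_sub i1 i2]
        exact integral_congr_ae (Eventually.of_forall fun x => by simp only; ring)
      rw [claim3] at this
      exact sub_eq_zero.1 this.symm
    have s2 : ∫ x, KC x * F₁ x ∂(mm N) = ∫ x, KC x * G x ∂(mm N) := by
      rw [← int_ce hC'm hKCA i2 hF₁i]
      refine integral_congr_ae ?_
      filter_upwards [hG1] with x hx
      rw [hx]
    have s3 : ∫ x, KC x * G x ∂(mm N) = ∫ x, K x * G x ∂(mm N) := by
      have h3 := int_ce_eb hC'm hGA (eb_bf hGB) hKi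
      have h4 : ∫ x, KC x * G x ∂(mm N) = ∫ x, G x * KC x ∂(mm N) :=
        integral_congr_ae (Eventually.of_forall fun x => mul_comm _ _)
      have h5 : ∫ x, K x * G x ∂(mm N) = ∫ x, G x * K x ∂(mm N) :=
        integral_congr_ae (Eventually.of_forall fun x => mul_comm _ _)
      rw [h4, h5]
      exact h3
    rw [s1, s2, s3]

end Pool.Agent.Helper29.TWR
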