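import Pool.Agent.Helper29.TWR.CE

/-!
Common lemmas for the rows VF1 and VST of the sheet TW (MP_7a8f48_an).
-/

set_option linter.unusedSectionVars false

open MeasureTheory Filter Topology Finset
open scoped ComplexConjugate

namespace Pool.Agent.Helper29.TWR

open Pool.Agent.Helper98.TW
open Pool.Agent.Helper16.AZ (T mm)

variable {N : ℕ} {lev : Fin N → ℕ} {f f' : Fin N → T N → U} {p q : ℕ}
  {κ : Measure (T N × T N)} {C : SA (T N)} {l : ℕ} {a b : Fin N → ℤ}

/-! ### characters -/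

theorem norm_ex (a : Fin N → ℤ) (x : T N) : ‖ex a x‖ = 1 := by
  simp only [ex, UnitAddTorus.mFourier, fourier_apply, ContinuousMap.coe_mk, norm_prod,
    Circle.norm_coe, Finset.prod_const_one]

theorem meas_ex (a : Fin N → ℤ) : Measurable (ex a : T N → ℂ) :=
  (UnitAddTorus.mFourier a).continuous.measurable

theorem uf_ex (a : Fin N → ℤ) : UF (mm N) (ex a) :=
  ⟨meas_ex a, Eventually.of_forall (norm_ex a)⟩

theorem conj_mul_ex (a : Fin N → ℤ) (x : T N) : conj (ex a x) * ex a x = 1 := by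
  rw [mul_comm, Complex.mul_conj, Complex.normSq_eq_norm_sq, norm_ex]
  simp

theorem ex_sub (a b : Fin N → ℤ) (x : T N) : ex (a - b) x = ex a x * conj (ex b x) := by
  have h := UnitAddTorus.mFourier_add (m := a) (n := -b) (x := x)
  rw [UnitAddTorus.mFourier_neg, ← sub_eq_add_neg] at h
  exact h

theorem la_sub (ha : la lev l a) (hb : la lev l b) : la lev l (a - b) := by
  intro i hi
  by_cases h1 : a i = 0
  · by_cases h2 : b i = 0
    · exact absurd (by simp [h1, h2]) hi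
    · exact hb i h2
  · exact ha i h1

/-- homogeneous functions with different characters are orthogonal over the levels below -/
theorem orth_char (hCHZ : ST_CHZ) (ha : la lev l a) (hb : la lev l b)
    (hab : a ≠ b) {X Y : T N → ℂ} (hX : AM (mm N) (AL lev l) (fun x => conj (ex a x) * X x))
    (hY : AM (mm N) (AL lev l) (fun x => conj (ex b x) * Y x))
    (hi : Integrable (fun x => X x * conj (Y x)) (mm N)) :
    (mm N)[fun x => X x * conj (Y x)|AL lev l] =ᵐ[mm N] 0 := by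
  have hW : AM (mm N) (AL lev l)
      (fun x => (conj (ex a x) * X x) * conj (conj (ex b x) * Y x)) := am_mul hX (am_conj hY)
  have hWe : ∀ x, (conj (ex a x) * X x) * conj (conj (ex b x) * Y x) =
      conj (ex (a - b) x) * (X x * conj (Y x)) := by
    intro x
    rw [ex_sub]
    simp only [map_mul, Complex.conj_conj]
    ring
  have hWi : Integrable (fun x => (conj (ex a x) * X x) * conj (conj (ex b x) * Y x)) (mm N) := by
    have h1 := (eb_uf (uf_ex (a - b))).conj.integrable_mul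
      ((uf_ex (a - b)).conj.1.aestronglyMeasurable) hi
    exact h1.congr (Eventually.of_forall fun x => (hWe x).symm)
  have h := hCHZ N lev l (a - b) (sub_ne_zero.2 hab) (la_sub ha hb) _ hWi hW
  refine (condExp_congr_ae (Eventually.of_forall fun x => ?_)).trans h
  show X x * conj (Y x) = ex (a - b) x * ((conj (ex a x) * X x) * conj (conj (ex b x) * Y x))
  rw [hWe, ← mul_assoc, mul_comm (ex (a - b) x), conj_mul_ex, one_mul]

/-- conditional expectations given the next hull -/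
theorem vs_zero (hDNS : ST_DNS) (hCHZ : ST_CHZ) (hALS : ST_ALS) (hHAA : ST_HAA)
    (hTI : TI lev f f') (hHP : HP lev f f' p q κ C l) (ha : la lev l a) {X : T N → ℂ}
    (hXi : Integrable X (mm N)) (hX : AM (mm N) (AL lev l) (fun x => conj (ex a x) * X x))
    (h : ∀ ψ ∈ VS lev f p q κ C l, AM (mm N) (AL lev l) (fun x => conj (ex a x) * ψ x) →
      (mm N)[fun x => conj (ψ x) * X x|C] =ᵐ[mm N] 0) :
    (mm N)[X|jo C (sg (VS lev f p q κ C l))] =ᵐ[mm N] 0 := by
  have hG := (hHAA N lev f f' p q κ C l hTI hHP).1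
  have hALm : Lm (AL lev l) := (hALS N lev).2.2.1 l
  refine ce_jo_zero hDNS hHP.ia.1 hG hXi ?_
  intro φ hφ
  obtain ⟨hu, ⟨b, hb, hφb⟩, -⟩ := hφ.1
  by_cases hab : a = b
  · subst hab
    refine (condExp_congr_ae (Eventually.of_forall fun x => ?_)).trans (h φ hφ hφb)
    exact mul_comm _ _
  · have hi : Integrable (fun x => X x * conj (φ x)) (mm N) := by
      have := (eb_uf hu).conj.integrable_mul hu.conj.1.aestronglyMeasurable hXi
      refine this.congr (Eventually.of_forall fun x => ?_)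
      exact mul_comm _ _
    exact ce_zero_lq hALm hHP.ia.1 hHP.le hi (orth_char hCHZ ha hb hab hX hφb hi)

/-- functions in `PA` are in `PP` -/
theorem pa_pp (ha : la lev l a) {ψ : T N → ℂ} (hψ : ψ ∈ PA lev f p C l a) :
    ψ ∈ PP lev f p C l := ⟨hψ.1, ⟨a, ha, hψ.2.1⟩, hψ.2.2⟩

theorem mp_fst (hJN : JN f p q κ) : MeasurePreserving Prod.fst κ (mm N) :=
  ⟨measurable_fst, hJN.fst⟩

theorem mp_snd (hJN : JN f p q κ) : MeasurePreserving Prod.snd κ (mm N) :=
  ⟨measurable_snd, hJN.snd⟩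

/-- the join of the second coordinate and of `C` is invariant -/
theorem ia_bb (hIAJ : ST_IAJ) (hPFC : ST_PFC) (hTRM : ST_TRM) (hMPS : ST_MPS)
    (hTI : TI lev f f') (hJN : JN f p q κ) (hC : IA (mm N) C (SS f)^[p] (SS f')^[p]) :
    IA κ (jo (BB N) (cm Prod.fst C)) (Prod.map (SS f)^[p] (SS f)^[q])
      (Prod.map (SS f')^[p] (SS f')^[q]) := by
  have hκ : IsProbabilityMeasure κ := hJN.prob
  have hS := (hTRM N lev f f' p q κ hTI hJN 0 0).2.2.2.1
  refine (hIAJ _ κ _ _ hS).1 _ _ ?_ ?_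
  · exact ia_cm hPFC (mp_snd hJN) hS (ia_full (hMPS N lev f f' hTI q)) (fun z => rfl)
      (fun z => rfl)
  · exact ia_cm hPFC (mp_fst hJN) hS hC (fun z => rfl) (fun z => rfl)

/-- invisible functions are orthogonal to the second coordinate and `C` -/
theorem inv_zero (hLZ : ST_LZ) (hIAJ : ST_IAJ) (hPFC : ST_PFC) (hTRM : ST_TRM) (hMPS : ST_MPS)
    (hTI : TI lev f f') (hJN : JN f p q κ) (hHP : HP lev f f' p q κ C l) (ha : la lev l a)
    {ψ : T N → ℂ} (hψ : ψ ∈ PA lev f p C l a) (hn : ψ ∉ VS lev f p q κ C l) :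
    κ[fun z => ψ z.1|jo (BB N) (cm Prod.fst C)] =ᵐ[κ] 0 := by
  have hκ : IsProbabilityMeasure κ := hJN.prob
  have hS := (hTRM N lev f f' p q κ hTI hJN 0 0).2.2.2.1
  have hIA := ia_bb hIAJ hPFC hTRM hMPS hTI hJN (hHP.ia.iterate p)
  have hu : UF κ (fun z => ψ z.1) := hψ.1.comp (mp_fst hJN)
  have hInc : Inc κ (jo (BB N) (cm Prod.fst C)) (Prod.map (SS f)^[p] (SS f)^[q])
      (fun z => ψ z.1) := by
    have h1 : AM (mm N) C (fun x => ψ ((SS f)^[p] x) * conj (ψ x)) := hψ.2.2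
    have h2 := ((hPFC _ _ κ (mm N) Prod.fst C (mp_fst hJN) hHP.ia.1).2.1 _
      (aesm hHP.ia.1 h1)).2 h1
    exact am_jo_right h2
  rcases hLZ _ κ _ _ (jo (BB N) (cm Prod.fst C)) _ hS hJN.erg hIA hu hInc with h | h
  · exact h
  · refine (hn ⟨pa_pp ha hψ, 1, le_rfl, Nat.coprime_one_left q, ?_⟩).elim
    unfold Vis
    simpa using h

/-- and to the next hull -/
theorem inv_zero' (hLZ : ST_LZ) (hLT : ST_LT) (hHAA : ST_HAA) (hPFC : ST_PFC) (hMPS : ST_MPS)
    (hTI : TI lev f f') (hE : Ergodic (SS f)^[p] (mm N)) (hJN : JN f p q κ)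
    (hHP : HP lev f f' p q κ C l)
    (hIA : IA (mm N) (jo C (sg (VS lev f p q κ C l))) (SS f) (SS f')) (ha : la lev l a)
    {ψ : T N → ℂ} (hψ : ψ ∈ PA lev f p C l a) (hn : ψ ∉ VS lev f p q κ C l) :
    (mm N)[ψ|jo C (sg (VS lev f p q κ C l))] =ᵐ[mm N] 0 := by
  have hκ : IsProbabilityMeasure κ := hJN.prob
  have hS := hMPS N lev f f' hTI p
  have hG := (hHAA N lev f f' p q κ C l hTI hHP).1
  have hInc : Inc (mm N) (jo C (sg (VS lev f p q κ C l))) (SS f)^[p] ψ := am_jo_left hψ.2.2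
  rcases hLZ _ (mm N) _ _ (jo C (sg (VS lev f p q κ C l))) _ hS hE (hIA.iterate p) hψ.1 hInc
    with h | h
  · exact h
  exfalso
  obtain ⟨φ, hφ, hψφ⟩ := hLT _ (mm N) _ _ C (VS lev f p q κ C l) ψ hS hE (hHP.ia.iterate p) hG
    (fun φ hφ => hφ.1.2.2) hψ.1 h hψ.2.2
  obtain ⟨M, hM1, hMq, hvis⟩ := hφ.2
  refine hn ⟨pa_pp ha hψ, M, hM1, hMq, ?_⟩
  unfold Vis at hvis ⊢
  have h1 : AM (mm N) C (fun x => (ψ x * conj (φ x)) ^ M) := am_pow hψφ M
  have h2 := ((hPFC _ _ κ (mm N) Prod.fst C (mp_fst hJN) hHP.ia.1).2.1 _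
      (aesm hHP.ia.1 h1)).2 h1
  refine am_congr (am_mul (am_jo_right (𝒜 := BB N) h2) hvis) ?_
  filter_upwards [(mp_fst hJN).quasiMeasurePreserving.ae hφ.1.1.conj_mul] with z hz
  rw [← mul_pow, mul_assoc, hz, mul_one]

end Pool.Agent.Helper29.TWR
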