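import Pool.Agent.Helper29.TWR.HIL

/-!
Row VST of the sheet TW (MP_7a8f48_an): the induction step for the estimate.
-/

set_option linter.unusedSectionVars false

open MeasureTheory Filter Topology Finset
open scoped ComplexConjugate

namespace Pool.Agent.Helper29.TWR

open Pool.Agent.Helper98.TW
open Pool.Agent.Helper16.AZ (T mm)

variable {N : ℕ} {lev : Fin N → ℕ} {f f' : Fin N → T N → U} {p q : ℕ}
  {κ : Measure (T N × T N)} {C : SA (T N)} {l n : ℕ} {δ : ℝ} {a b : Fin N → ℤ}

/-- truncations of homogeneous functions -/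
theorem am_trn (k : ℕ) {g : T N → ℂ}
    (hg : AM (mm N) (AL lev l) (fun x => conj (ex a x) * g x)) :
    AM (mm N) (AL lev l) (fun x => conj (ex a x) * trn k g x) := by
  classical
  have hφ : Measurable (fun z : ℂ => if ‖z‖ ≤ k then z else 0) :=
    Measurable.ite (measurableSet_le measurable_norm measurable_const) measurable_id
      measurable_const
  refine am_congr (am_cont hφ hg) (Eventually.of_forall fun x => ?_)
  have h1 : ‖conj (ex a x) * g x‖ = ‖g x‖ := by
    rw [norm_mul, RCLike.norm_conj, norm_ex, one_mul]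
  show (if ‖conj (ex a x) * g x‖ ≤ k then conj (ex a x) * g x else 0) =
    conj (ex a x) * trn k g x
  rw [h1]
  unfold trn
  split_ifs with h
  · rfl
  · simp

theorem trn_lp (g : Lp ℂ 2 (mm N)) :
    Tendsto (fun k => (memLp_bf (μ := mm N) (bf_trn k (Lp.stronglyMeasurable g).measurable)).toLp)
      atTop (𝓝 g) := by
  have h := trn_tendsto (Lp.stronglyMeasurable g).measurable (Lp.memLp g)
  rwa [Lp.toLp_coeFn] at h

/-- the estimate for one component -/
theorem comp_est (hVF1 : ST_VF1) (hVF2 : ST_VF2) (hTI : TI lev f f')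
    (hEG : ∀ m : ℕ, 1 ≤ m → EG lev f m) (hp : p.Prime) (hq : q.Prime) (hpq : p ≠ q)
    (hJN : JN f p q κ) (hHP : HP lev f f' p q κ C l)
    (hC'm : Lm (jo C (sg (VS lev f p q κ C l))))
    (hSM : SM (mm N) C (AL lev l) (SS f)^[p] n) (hδ : 0 ≤ δ) (hVE : VE lev κ C l δ)
    (ha : la lev l a) [IsProbabilityMeasure κ] (g : Lp ℂ 2 (mm N))
    (hgA : AM (mm N) (AL lev l) (fun x => conj (ex a x) * g x))
    (hg0 : (mm N)[g|jo C (sg (VS lev f p q κ C l))] =ᵐ[mm N] 0) :
    ‖JO (mp_fst hJN) g‖ ^ 2 ≤ (1 / √((n : ℝ) + 1) + √δ) * ‖g‖ ^ 2 := by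
  set C' : SA (T N) := jo C (sg (VS lev f p q κ C l)) with hC'
  set J := JO (mp_fst hJN) with hJ
  set P := CE (mm N) C' hC'm with hP
  have hδ' : 0 ≤ 1 / √((n : ℝ) + 1) + √δ := by positivity
  have hgm : Measurable g := (Lp.stronglyMeasurable g).measurable
  have ht := trn_lp g
  have hPg : P g = 0 := by
    refine Lp.ext ?_
    refine (CE_ae' hC'm g).trans (hg0.trans ?_)
    exact (Lp.coeFn_zero ℂ 2 (mm N)).symm
  have key : ∀ k : ℕ, ‖J ((memLp_bf (μ := mm N) (bf_trn k hgm)).toLp -
      P ((memLp_bf (μ := mm N) (bf_trn k hgm)).toLp))‖ ^ 2 ≤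
      (1 / √((n : ℝ) + 1) + √δ) * ‖(memLp_bf (μ := mm N) (bf_trn k hgm)).toLp‖ ^ 2 := by
    intro k
    have hFB := bf_trn k hgm
    have hF2 : MemLp (trn k g) 2 (mm N) := memLp_bf hFB
    obtain ⟨F₁, F₂, hF₁B, hF₂B, hFe, hF₂A, hF₂0, hF₂n, hpr⟩ :=
      hVF1 N lev f f' p q κ C l a (trn k g) hTI hEG hp hq hpq hJN hHP ha hFB (am_trn k hgA)
    obtain ⟨G, hGB, hG⟩ := exists_bf (aesm (μ := mm N) hC'm am_ce)
      (eb_ce (𝒜 := C') (eb_bf (μ := mm N) hFB))
    have hproj := hpr G hGB hG.symm
    have m1 : MemLp F₁ 2 (mm N) := memLp_bf hF₁B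
    have m2 : MemLp F₂ 2 (mm N) := memLp_bf hF₂B
    have mG : MemLp G 2 (mm N) := memLp_bf hGB
    have e1 : hF2.toLp (trn k g) = m1.toLp F₁ + m2.toLp F₂ := by
      rw [← MemLp.toLp_add]
      exact MemLp.toLp_congr _ _ hFe
    have e2 : P (hF2.toLp (trn k g)) = mG.toLp G := by
      refine Lp.ext ?_
      exact (CE_ae hC'm hF2).trans (hG.trans mG.coeFn_toLp.symm)
    have e3 : J (m1.toLp F₁) = J (mG.toLp G) := by
      refine Lp.ext ?_
      exact (JO_ae _ m1).trans (hproj.trans (JO_ae _ mG).symm)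
    have e4 : J (hF2.toLp (trn k g) - P (hF2.toLp (trn k g))) = J (m2.toLp F₂) := by
      rw [e2, e1, map_sub, map_add, e3]
      abel
    show ‖J (hF2.toLp (trn k g) - P (hF2.toLp (trn k g)))‖ ^ 2 ≤
      (1 / √((n : ℝ) + 1) + √δ) * ‖hF2.toLp (trn k g)‖ ^ 2
    rw [e4, JO_nsq, nsq' hF2]
    refine (hVF2 N lev f f' p q κ C l n δ a F₂ hTI hEG hp.one_le hq.one_le hJN hHP hSM hδ hVE
      ha hF₂B hF₂A hF₂0).trans ?_
    exact mul_le_mul_of_nonneg_left hF₂n hδ'
  have l1 : Tendsto (fun k : ℕ => ‖J ((memLp_bf (μ := mm N) (bf_trn k hgm)).toLp -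
      P ((memLp_bf (μ := mm N) (bf_trn k hgm)).toLp))‖ ^ 2) atTop (𝓝 (‖J g‖ ^ 2)) := by
    have h1 : Tendsto (fun k : ℕ => (memLp_bf (μ := mm N) (bf_trn k hgm)).toLp -
        P ((memLp_bf (μ := mm N) (bf_trn k hgm)).toLp)) atTop (𝓝 (g - P g)) :=
      ht.sub ((P.continuous.tendsto g).comp ht)
    rw [hPg, sub_zero] at h1
    exact (((J.continuous.tendsto g).comp h1).norm).pow 2
  have l2 : Tendsto (fun k : ℕ => (1 / √((n : ℝ) + 1) + √δ) *
      ‖(memLp_bf (μ := mm N) (bf_trn k hgm)).toLp‖ ^ 2) atTop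
      (𝓝 ((1 / √((n : ℝ) + 1) + √δ) * ‖g‖ ^ 2)) := (ht.norm.pow 2).const_mul _
  exact le_of_tendsto_of_tendsto' l1 l2 key

/-- images of different components are orthogonal -/
theorem comp_orth (hJG2 : ST_JG2) (hTI : TI lev f f') (hMR : MR lev f)
    (hEG : ∀ m : ℕ, 1 ≤ m → EG lev f m) (hNU : ∀ m : ℕ, 1 ≤ m → NU lev f m)
    (hp : 1 ≤ p) (hq : 1 ≤ q) (hJN : JN f p q κ) [IsProbabilityMeasure κ]
    (ha : la lev l a) (hb : la lev l b) (hab : a ≠ b) (g h : Lp ℂ 2 (mm N))
    (hg : AM (mm N) (AL lev l) (fun x => conj (ex a x) * g x))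
    (hh : AM (mm N) (AL lev l) (fun x => conj (ex b x) * h x)) :
    (inner ℂ (JO (mp_fst hJN) g) (JO (mp_fst hJN) h) : ℂ) = 0 := by
  set J := JO (mp_fst hJN) with hJ
  have hgm : Measurable g := (Lp.stronglyMeasurable g).measurable
  have hhm : Measurable h := (Lp.stronglyMeasurable h).measurable
  have key : ∀ k : ℕ, (inner ℂ (J ((memLp_bf (μ := mm N) (bf_trn k hgm)).toLp))
      (J ((memLp_bf (μ := mm N) (bf_trn k hhm)).toLp)) : ℂ) = 0 := by
    intro k
    have m1 : MemLp (trn k g) 2 (mm N) := memLp_bf (bf_trn k hgm)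
    have m2 : MemLp (trn k h) 2 (mm N) := memLp_bf (bf_trn k hhm)
    have hbf : ∀ (c : Fin N → ℤ) {u : T N → ℂ}, Measurable u →
        BF (fun x => conj (ex c x) * trn k u x) := by
      intro c u hu
      obtain ⟨h1, B, hB⟩ := bf_trn k hu
      refine ⟨(Complex.continuous_conj.measurable.comp (meas_ex c)).mul h1, B, fun x => ?_⟩
      rw [norm_mul, RCLike.norm_conj, norm_ex, one_mul]
      exact hB x
    have h0 := hJG2 N lev f f' p q κ hTI hMR hEG hNU hp hq hJN l b a hb ha hab.symm
      (fun x => conj (ex b x) * trn k h x) (fun x => conj (ex a x) * trn k g x)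
      (hbf b hhm) (hbf a hgm) (am_trn k hh) (am_trn k hg)
    have hs : ∀ (c : Fin N → ℤ) (u : T N → ℂ) (x : T N),
        ex c x * (conj (ex c x) * u x) = u x := by
      intro c u x
      rw [← mul_assoc, mul_comm (ex c x), conj_mul_ex, one_mul]
    simp only [hs] at h0
    rw [inner_eq]
    refine Eq.trans (integral_congr_ae ?_) h0
    filter_upwards [JO_ae (mp_fst hJN) m1, JO_ae (mp_fst hJN) m2] with z h1 h2
    show conj ((JO (mp_fst hJN) (m1.toLp (trn k g))) z) *
      (JO (mp_fst hJN) (m2.toLp (trn k h))) z = _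
    rw [h1, h2, mul_comm]
  have t1 : Tendsto (fun k : ℕ => J ((memLp_bf (μ := mm N) (bf_trn k hgm)).toLp)) atTop
      (𝓝 (J g)) := (J.continuous.tendsto g).comp (trn_lp g)
  have t2 : Tendsto (fun k : ℕ => J ((memLp_bf (μ := mm N) (bf_trn k hhm)).toLp)) atTop
      (𝓝 (J h)) := (J.continuous.tendsto h).comp (trn_lp h)
  have t3 := t1.inner (𝕜 := ℂ) t2
  simp only [key] at t3
  exact tendsto_nhds_unique t3 tendsto_const_nhds

theorem st_VST (hVF1 : ST_VF1) (hVF2 : ST_VF2) (hJG2 : ST_JG2) (hHIA : ST_HIA)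
    (hCHZ : ST_CHZ) (hALS : ST_ALS) (hDNS : ST_DNS) (hHAA : ST_HAA) : ST_VST := by
  intro N lev f f' p q κ C l n δ hTI hMR hEG hNU hp hq hpq hJN hHP hSM hδ hVE G hGm hG2 hGA hG0
  have hκ : IsProbabilityMeasure κ := hJN.prob
  have hfst := mp_fst hJN
  have hδ' : 0 ≤ 1 / √((n : ℝ) + 1) + √δ := by positivity
  obtain ⟨-, hALs, hALm', hALle, -, hGrp, hexA⟩ := hALS N lev
  have hALm : Lm (AL lev l) := hALm' l
  obtain ⟨hIA', -, -⟩ := hHIA N lev f f' p q κ C l hTI hp hq hpq hHP
  have hC'm : Lm (jo C (sg (VS lev f p q κ C l))) := hIA'.1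
  -- the components
  have hexG : ∀ a : Fin N → ℤ, MemLp (fun x => conj (ex a x) * G x) 2 (mm N) := by
    intro a
    refine ⟨((Complex.continuous_conj.measurable.comp (meas_ex a)).mul hGm).aestronglyMeasurable,
      ?_⟩
    refine lt_of_le_of_lt (eLpNorm_mono fun x => ?_) hG2.2
    rw [norm_mul, RCLike.norm_conj, norm_ex, one_mul]
  set w : (Fin N → ℤ) → T N → ℂ := fun a => (mm N)[fun x => conj (ex a x) * G x|AL lev l] with hw
  have hw2 : ∀ a, MemLp (w a) 2 (mm N) := fun a => memLp_ce (hexG a)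
  have hwA : ∀ a, AM (mm N) (AL lev l) (w a) := fun a => am_ce
  have hv2 : ∀ a, MemLp (fun x => ex a x * w a x) 2 (mm N) := by
    intro a
    refine ⟨(meas_ex a).aestronglyMeasurable.mul (hw2 a).1, ?_⟩
    refine lt_of_le_of_lt (eLpNorm_mono fun x => ?_) (hw2 a).2
    rw [norm_mul, norm_ex, one_mul]
  have hcan : ∀ (c : Fin N → ℤ) (z : ℂ) (x : T N), conj (ex c x) * (ex c x * z) = z := by
    intro c z x
    rw [← mul_assoc, conj_mul_ex, one_mul]
  have hvA : ∀ a, AM (mm N) (AL lev l) (fun x => conj (ex a x) * (ex a x * w a x)) := by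
    intro a
    exact am_congr (hwA a) (Eventually.of_forall fun x => (hcan a (w a x) x).symm)
  -- (2) the components are orthogonal to the next hull
  have hv0 : ∀ a, la lev l a →
      (mm N)[fun x => ex a x * w a x|jo C (sg (VS lev f p q κ C l))] =ᵐ[mm N] 0 := by
    intro a ha
    refine vs_zero hDNS hCHZ hALS hHAA hTI hHP ha (int2 (hv2 a)) (hvA a) ?_
    intro ψ hψ hψa
    have hψu : UF (mm N) ψ := hψ.1.1
    have hi : Integrable (fun x => conj (ψ x) * (ex a x * w a x)) (mm N) :=
      (eb_uf hψu).conj.integrable_mul hψu.conj.1.aestronglyMeasurable (int2 (hv2 a))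
    rw [ce_zero_iff hHP.ia.1 hi]
    intro c hc hcb
    have hcA : AM (mm N) (AL lev l) (fun x => c x * conj (conj (ex a x) * ψ x)) :=
      am_mul (hHP.le c hc) (am_conj hψa)
    have hcAb : EB (mm N) (fun x => c x * conj (conj (ex a x) * ψ x)) :=
      hcb.mul ((eb_uf (uf_ex a)).conj.mul (eb_uf hψu)).conj
    have h1 := int_ce_eb hALm hcA hcAb (int2 (hexG a))
    have h2 := (ce_zero_iff hC'm (int2 hG2)).1 hG0 (fun x => c x * conj (ψ x))
      (am_mul (am_jo_left hc) (am_conj (am_jo_right (am_sg hψ)))) (hcb.mul (eb_uf hψu).conj)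
    calc ∫ x, c x * (conj (ψ x) * (ex a x * w a x)) ∂(mm N)
        = ∫ x, (c x * conj (conj (ex a x) * ψ x)) * w a x ∂(mm N) := by
          refine integral_congr_ae (Eventually.of_forall fun x => ?_)
          simp only [map_mul, Complex.conj_conj]
          ring
      _ = ∫ x, (c x * conj (conj (ex a x) * ψ x)) * (conj (ex a x) * G x) ∂(mm N) := h1
      _ = ∫ x, (c x * conj (ψ x)) * G x ∂(mm N) := by
          refine integral_congr_ae (Eventually.of_forall fun x => ?_)
          have h3 := conj_mul_ex a x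
          simp only [map_mul, Complex.conj_conj]
          calc c x * (ex a x * conj (ψ x)) * (conj (ex a x) * G x)
              = (conj (ex a x) * ex a x) * (c x * conj (ψ x) * G x) := by ring
            _ = _ := by rw [h3, one_mul]
      _ = 0 := h2
  -- inner products of homogeneous functions
  have horth : ∀ a b : Fin N → ℤ, la lev l a → la lev l b → a ≠ b → ∀ X Y : T N → ℂ,
      MemLp X 2 (mm N) → MemLp Y 2 (mm N) →
      AM (mm N) (AL lev l) (fun x => conj (ex a x) * X x) →
      AM (mm N) (AL lev l) (fun x => conj (ex b x) * Y x) →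
      ∫ x, conj (Y x) * X x ∂(mm N) = 0 := by
    intro a b ha hb hab X Y hX hY hXA hYA
    have hYc : MemLp (fun x => conj (Y x)) 2 (mm N) := hY.star
    have hi : Integrable (fun x => X x * conj (Y x)) (mm N) := int_mul2 hX hYc
    have h1 := orth_char hCHZ ha hb hab hXA hYA hi
    have h2 := (ce_zero_iff hALm hi).1 h1 (fun _ => 1) (am_const 1) ⟨1, by simp⟩
    rw [← h2]
    exact integral_congr_ae (Eventually.of_forall fun x => by simp only; ring)
  -- the vectors
  let v : {a : Fin N → ℤ // la lev l a} → Lp ℂ 2 (mm N) := fun a => (hv2 a.1).toLp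
  have hvae : ∀ a, (v a : T N → ℂ) =ᵐ[mm N] fun x => ex a.1 x * w a.1 x := fun a =>
    (hv2 a.1).coeFn_toLp
  have hGae : (hG2.toLp G : T N → ℂ) =ᵐ[mm N] G := hG2.coeFn_toLp
  have hvorth : ∀ a b, a ≠ b → (inner ℂ (v a) (v b) : ℂ) = 0 := by
    intro a b hab
    rw [inner_eq]
    have h1 := horth b.1 a.1 b.2 a.2 (fun h => hab (Subtype.ext h.symm)) _ _ (hv2 b.1)
      (hv2 a.1) (hvA b.1) (hvA a.1)
    rw [← h1]
    refine integral_congr_ae ?_
    filter_upwards [hvae a, hvae b] with x h1 h2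
    rw [h1, h2]
  have hvG : ∀ a, (inner ℂ (v a) (hG2.toLp G) : ℂ) = inner ℂ (v a) (v a) := by
    intro a
    rw [inner_eq, inner_eq]
    have hwc : MemLp (fun x => conj (w a.1 x)) 2 (mm N) := (hw2 a.1).star
    have h1 := int_ce hALm (am_conj (hwA a.1)) (int_mul2 hwc (hexG a.1)) (int2 (hexG a.1))
    calc ∫ x, conj (v a x) * (hG2.toLp G) x ∂(mm N)
        = ∫ x, conj (w a.1 x) * (conj (ex a.1 x) * G x) ∂(mm N) := by
          refine integral_congr_ae ?_
          filter_upwards [hvae a, hGae] with x h1 h2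
          rw [h1, h2]
          simp only [map_mul]
          ring
      _ = ∫ x, conj (w a.1 x) * w a.1 x ∂(mm N) := h1.symm
      _ = ∫ x, conj (v a x) * v a x ∂(mm N) := by
          refine integral_congr_ae ?_
          filter_upwards [hvae a] with x h1
          rw [h1]
          have h3 := conj_mul_ex a.1 x
          simp only [map_mul]
          calc conj (w a.1 x) * w a.1 x
              = (conj (ex a.1 x) * ex a.1 x) * (conj (w a.1 x) * w a.1 x) := by
                rw [h3, one_mul]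
            _ = _ := by ring
  -- the sum
  have hsum : Summable v := summable_orth v hvorth _ (bessel v (hG2.toLp G) hvorth hvG)
  set u : Lp ℂ 2 (mm N) := ∑' a, v a with hu
  have hHS : HasSum v u := hsum.hasSum
  have hLe1 : @LE.le (MeasurableSpace (T N)) _ (AL lev (l + 1)) inferInstance := hALm' (l + 1)
  have huA : AM (mm N) (AL lev (l + 1)) u := by
    have hcl := isClosed_aestronglyMeasurable (F := ℂ) (p := 2) (μ := mm N)
      (m := AL lev (l + 1)) hLe1
    refine hcl.mem_of_tendsto hHS (Eventually.of_forall fun S => ?_)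
    have : AM (mm N) (AL lev (l + 1)) (fun x => ∑ a ∈ S, v a x) := by
      refine am_finset_sum S fun a _ => ?_
      refine am_congr (am_mul (hexA l (l + 1) a.1 (Nat.lt_succ_self l) a.2)
        (hALle l (l + 1) (Nat.le_succ l) _ (hwA a.1))) (hvae a).symm
    refine am_congr this ?_
    have h1 := Lp.coeFn_finsetSum S v
    filter_upwards [h1] with x hx
    rw [hx]
    simp
  have hdiff : hG2.toLp G = u := by
    rw [← sub_eq_zero]
    refine Lp.ext ?_
    refine EventuallyEq.trans ?_ (Lp.coeFn_zero ℂ 2 (mm N)).symm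
    have hFA : AM (mm N) (AL lev (l + 1)) (hG2.toLp G - u : Lp ℂ 2 (mm N)) := by
      have := am_sub (am_congr hGA hGae.symm) huA
      exact am_congr this (Lp.coeFn_sub _ _).symm
    refine hDNS (T N) (mm N) (AL lev l) (CH lev l) _ hALm (hGrp l)
      (int2 (Lp.memLp _)) ?_ ?_
    · rw [← hALs l]
      exact hFA
    · rintro φ ⟨b, hb, rfl⟩
      have hi : Integrable (fun x => (hG2.toLp G - u : Lp ℂ 2 (mm N)) x * conj (ex b x))
          (mm N) := by
        have := (eb_uf (uf_ex b)).conj.integrable_mul (uf_ex b).conj.1.aestronglyMeasurable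
          (int2 (Lp.memLp (hG2.toLp G - u)))
        exact this.congr (Eventually.of_forall fun x => mul_comm _ _)
      rw [ce_zero_iff hALm hi]
      intro c hc hcb
      have hcm : AEStronglyMeasurable c (mm N) := aesm hALm hc
      have hcc : MemLp (fun x => conj (c x)) 2 (mm N) := (hcb.memLp hcm).star
      have hW2 : MemLp (fun x => ex b x * conj (c x)) 2 (mm N) := by
        refine ⟨(meas_ex b).aestronglyMeasurable.mul hcc.1, ?_⟩
        refine lt_of_le_of_lt (eLpNorm_mono fun x => ?_) hcc.2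
        rw [norm_mul, norm_ex, one_mul]
      have hWA : AM (mm N) (AL lev l) (fun x => conj (ex b x) * (ex b x * conj (c x))) :=
        am_congr (am_conj hc) (Eventually.of_forall fun x => (hcan b (conj (c x)) x).symm)
      have hWae := hW2.coeFn_toLp
      -- the inner product with `G`
      have g1 : (inner ℂ (hW2.toLp) (hG2.toLp G) : ℂ) = inner ℂ (hW2.toLp) (v ⟨b, hb⟩) := by
        rw [inner_eq, inner_eq]
        have h1 := int_ce_eb hALm hc hcb (int2 (hexG b))
        calc ∫ x, conj (hW2.toLp _ x) * (hG2.toLp G) x ∂(mm N)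
            = ∫ x, c x * (conj (ex b x) * G x) ∂(mm N) := by
              refine integral_congr_ae ?_
              filter_upwards [hWae, hGae] with x h1 h2
              rw [h1, h2]
              simp only [map_mul, Complex.conj_conj]
              ring
          _ = ∫ x, c x * w b x ∂(mm N) := h1.symm
          _ = ∫ x, conj (hW2.toLp _ x) * v ⟨b, hb⟩ x ∂(mm N) := by
              refine integral_congr_ae ?_
              filter_upwards [hWae, hvae ⟨b, hb⟩] with x h1 h2
              rw [h1, h2]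
              have h3 := conj_mul_ex b x
              simp only [map_mul, Complex.conj_conj]
              calc c x * w b x = (conj (ex b x) * ex b x) * (c x * w b x) := by
                    rw [h3, one_mul]
                _ = _ := by ring
      have g2 : (inner ℂ (hW2.toLp) u : ℂ) = inner ℂ (hW2.toLp) (v ⟨b, hb⟩) := by
        refine inner_hasSum v u hW2.toLp hHS ⟨b, hb⟩ fun a ha => ?_
        have h3 := horth a.1 b a.2 hb (fun h => ha (Subtype.ext h)) _ _ (hv2 a.1) hW2
          (hvA a.1) hWA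
        refine (inner_eq _ _).trans (Eq.trans (integral_congr_ae ?_) h3)
        filter_upwards [hWae, hvae a] with x h1 h2
        rw [h1, h2]
      have g3 : (inner ℂ (hW2.toLp) (hG2.toLp G - u) : ℂ) = 0 := by
        rw [inner_sub_right, g1, g2, sub_self]
      rw [inner_eq] at g3
      rw [← g3]
      refine integral_congr_ae ?_
      filter_upwards [hWae] with x h1
      rw [h1]
      simp only [map_mul, Complex.conj_conj]
      ring
  rw [← hdiff] at hHS
  have hfin := est_sum v (hG2.toLp G) hvorth hvG (JO hfst) ?_ _ hδ' ?_ hHS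
  · rwa [JO_nsq, nsq'] at hfin
  · intro a b hab
    refine comp_orth hJG2 hTI hMR hEG hNU hp.one_le hq.one_le hJN a.2 b.2
      (fun h => hab (Subtype.ext h)) _ _ ?_ ?_
    · refine am_congr (hvA a.1) ?_
      filter_upwards [hvae a] with x hx
      rw [hx]
    · refine am_congr (hvA b.1) ?_
      filter_upwards [hvae b] with x hx
      rw [hx]
  · intro a
    refine comp_est hVF1 hVF2 hTI hEG hp hq hpq hJN hHP hC'm hSM hδ hVE a.2 (v a) ?_ ?_
    · refine am_congr (hvA a.1) ?_
      filter_upwards [hvae a] with x hx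
      rw [hx]
    · exact (condExp_congr_ae (hvae a)).trans (hv0 a.1 a.2)

end Pool.Agent.Helper29.TWR
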